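import Pool.Agent.Helper59.U.H4

/-! MP_506470_co, module U-H5: one-point strong amalgamation -/

set_option autoImplicit false

namespace SetHom
namespace Un

variable {V : Type} {G : SimpleGraph V}

/-- the big relation -/
def ap1R {α β₁ β₂ : Type} (n : ℕ) (R₁ : α → β₁ → Prop) (R₂ : α → β₂ → Prop) :
    α → ((β₁ ⊕ β₂) ⊕ ((α × Fin n) ⊕ Unit)) → Prop :=
  fun x j => match j with
    | Sum.inl (Sum.inl j) => R₁ x j
    | Sum.inl (Sum.inr j) => R₂ x j
    | Sum.inr (Sum.inl p) => x = p.1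
    | Sum.inr (Sum.inr _) => False

/-- a graph glued with the right adjacency of `a` and `b` -/
theorem ap1_emb {r : ℕ} {α β : Type} {A A₀ : SimpleGraph α} {R : α → β → Prop} {T : Set α}
    {a b : α}
    (hag : ∀ x y, ¬ (x = a ∧ y = b) → ¬ (x = b ∧ y = a) → (A₀.Adj x y ↔ A.Adj x y))
    {W : Finset V} {f : α ⊕ β → V} (hW : Clq G W) (hc : W.card = r)
    (hfull : ∀ z ∈ insert (Sum.inl a) (insert (Sum.inl b) (UJ β (T \ {a, b}))), Full G (f z) W)
    (hinj : Set.InjOn f (insert (Sum.inl a) (insert (Sum.inl b) (UJ β (T \ {a, b})))))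
    (hadj : ∀ u ∈ UJ β (T \ {a, b}),
      ∀ v ∈ insert (Sum.inl a) (insert (Sum.inl b) (UJ β (T \ {a, b}))),
      (G.Adj (f u) (f v) ↔ (AJ A₀ R).Adj u v))
    (hf : G.Adj (f (Sum.inl a)) (f (Sum.inl b)) ↔ A.Adj a b) :
    InW G r (AJ A R) (UJ β T) := by
  have hmem : ∀ z ∈ UJ β T, z ∈ insert (Sum.inl a : α ⊕ β)
      (insert (Sum.inl b) (UJ β (T \ {a, b}))) := by
    rintro (x | j) hz
    · rw [mem_UJ_inl] at hz
      by_cases hxa : x = a
      · rw [hxa]; exact Set.mem_insert _ _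
      · by_cases hxb : x = b
        · rw [hxb]; exact Set.mem_insert_of_mem _ (Set.mem_insert _ _)
        · refine Set.mem_insert_of_mem _ (Set.mem_insert_of_mem _ ?_)
          rw [mem_UJ_inl]
          exact ⟨hz, by simp [hxa, hxb]⟩
    · exact Set.mem_insert_of_mem _ (Set.mem_insert_of_mem _ mem_UJ_inr)
  -- adjacency when one point is in the base
  have hbase : ∀ u ∈ UJ β (T \ {a, b}), ∀ v ∈ UJ β T,
      (G.Adj (f u) (f v) ↔ (AJ A R).Adj u v) := by
    intro u hu v hv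
    rw [hadj u hu v (hmem v hv)]
    rcases u with x | j <;> rcases v with y | k
    · rw [mem_UJ_inl] at hu
      have hxa : x ≠ a := fun e => hu.2 (by simp [e])
      have hxb : x ≠ b := fun e => hu.2 (by simp [e])
      rw [AJ_ll, AJ_ll]
      exact hag x y (fun h => hxa h.1) (fun h => hxb h.1)
    · exact Iff.rfl
    · exact Iff.rfl
    · exact Iff.rfl
  have hcase : ∀ z ∈ UJ β T, z = Sum.inl a ∨ z = Sum.inl b ∨ z ∈ UJ β (T \ {a, b}) := by
    intro z hz
    have := hmem z hz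
    simpa only [Set.mem_insert_iff] using this
  refine ⟨W, f, hW, hc, fun x hx => hfull x (hmem x hx),
    fun x hx y hy e => hinj (hmem x hx) (hmem y hy) e, ?_⟩
  intro u hu v hv
  rcases hcase u hu with rfl | rfl | hu'
  · rcases hcase v hv with rfl | rfl | hv'
    · simp
    · rw [AJ_ll]; exact hf
    · rw [G.adj_comm, (AJ A R).adj_comm]
      exact hbase v hv' _ hu
  · rcases hcase v hv with rfl | rfl | hv'
    · rw [AJ_ll, G.adj_comm, A.adj_comm]; exact hf
    · simp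
    · rw [G.adj_comm, (AJ A R).adj_comm]
      exact hbase v hv' _ hu
  · exact hbase u hu' v hv

/-- module U-H5: one-point strong amalgamation. -/
theorem ap1 (hB : UBase G) {S : Set ℕ} {α : Type} [Finite α] {A A' : SimpleGraph α} {T : Set α}
    {a b : α} (ha : a ∈ T) (hb : b ∈ T) (hab : a ≠ b)
    (hag : ∀ x y, ¬ (x = a ∧ y = b) → ¬ (x = b ∧ y = a) → (A.Adj x y ↔ A'.Adj x y))
    (h1 : A.Adj a b) (h2 : ¬ A'.Adj a b) (hPa : PS G S A (T \ {a})) (hPb : PS G S A (T \ {b})) :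
    PS G S A T ∨ PS G S A' T := by
  classical
  by_contra hcon
  rw [not_or] at hcon
  obtain ⟨hc1, hc2⟩ := hcon
  unfold PS at hc1 hc2
  push Not at hc1 hc2
  obtain ⟨β₁, fβ₁, R₁, r₁, hr₁, hn₁⟩ := hc1
  obtain ⟨β₂, fβ₂, R₂, r₂, hr₂, hn₂⟩ := hc2
  -- the maximum
  obtain ⟨r, hr, hle1, hle2⟩ : ∃ r ∈ S, r₁ ≤ r ∧ r₂ ≤ r := by
    rcases le_total r₁ r₂ with h | h
    · exact ⟨r₂, hr₂, h, le_rfl⟩
    · exact ⟨r₁, hr₁, le_rfl, h⟩
  let n : ℕ := Nat.card α + 1
  let J : Type := (β₁ ⊕ β₂) ⊕ ((α × Fin n) ⊕ Unit)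
  let R : α → J → Prop := ap1R n R₁ R₂
  let H : SimpleGraph (α ⊕ J) := AJ A R
  let U : Set (α ⊕ J) := UJ J (T \ {a, b})
  let T₀ : Set (α ⊕ J) := Sum.inl '' (T \ {a, b})
  have hT₀U : T₀ ⊆ U := by
    rintro _ ⟨x, hx, rfl⟩
    exact mem_UJ_inl.2 hx
  have hnT : ∀ x ∈ U, x ∉ T₀ → ∃ j, x = Sum.inr j := by
    rintro (x | j) hx hxT
    · exact absurd ⟨x, mem_UJ_inl.1 hx, rfl⟩ hxT
    · exact ⟨j, rfl⟩
  have hJ : ∀ x ∈ U, x ∉ T₀ → ∀ y ∈ U, y ∉ T₀ → ¬ H.Adj x y := by
    intro x hx hxT y hy hyT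
    obtain ⟨j, rfl⟩ := hnT x hx hxT
    obtain ⟨k, rfl⟩ := hnT y hy hyT
    exact AJ_rr _ _
  -- the parts
  have hP0 : PS G S H T₀ := by
    refine hPa.comap (fun z => Sum.elim id (fun _ => a) z) ?_ ?_ ?_
    · rintro _ ⟨x, hx, rfl⟩
      exact ⟨hx.1, fun e => hx.2 (Or.inl (Set.mem_singleton_iff.1 e))⟩
    · rintro _ ⟨x, hx, rfl⟩ _ ⟨y, hy, rfl⟩ e
      simp only [Sum.elim_inl, id_eq] at e
      rw [e]
    · rintro _ ⟨x, hx, rfl⟩ _ ⟨y, hy, rfl⟩
      simp only [Sum.elim_inl, id_eq]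
      exact AJ_ll _ _
  have hnull : ∀ x : α ⊕ J, ¬ H.Adj x (Sum.inr (Sum.inr (Sum.inr ()))) := by
    rintro (x | j) h
    · exact h
    · exact h
  have hnd : ∀ x ∈ U, ∃ y ∈ U, y ≠ x ∧ ¬ H.Adj x y := by
    intro x hx
    by_cases hxn : x = Sum.inr (Sum.inr (Sum.inr ()))
    · refine ⟨Sum.inr (Sum.inr (Sum.inl (a, ⟨0, Nat.succ_pos _⟩))), mem_UJ_inr, ?_, ?_⟩
      · rw [hxn]
        intro e
        exact Sum.inl_ne_inr (Sum.inr_injective (Sum.inr_injective e))
      · rw [hxn]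
        exact AJ_rr _ _
    · exact ⟨_, mem_UJ_inr, fun e => hxn e.symm, hnull x⟩
  have hAut : AutPres H U T₀ := by
    refine autPres_of_deg hJ ?_
    rintro _ ⟨t, ht, rfl⟩
    have hsub : Set.range (fun k : Fin n => (Sum.inr (Sum.inr (Sum.inl (t, k))) : α ⊕ J)) ⊆
        {j | j ∈ U ∧ j ∉ T₀ ∧ H.Adj (Sum.inl t) j} := by
      rintro _ ⟨k, rfl⟩
      refine ⟨mem_UJ_inr, ?_, ?_⟩
      · rintro ⟨x, -, hx⟩
        simp at hx
      · show ap1R n R₁ R₂ t (Sum.inr (Sum.inl (t, k)))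
        rfl
    have hcard : (Set.range (fun k : Fin n =>
        (Sum.inr (Sum.inr (Sum.inl (t, k))) : α ⊕ J))).ncard = n := by
      rw [← Set.image_univ, Set.ncard_image_of_injective, Set.ncard_univ, Nat.card_fin]
      intro k k' e
      have e2 := Sum.inl_injective (Sum.inr_injective (Sum.inr_injective e))
      exact (Prod.mk.inj e2).2
    have hle : T₀.ncard ≤ Nat.card α := by
      refine (Set.ncard_image_le (Set.toFinite _)).trans ?_
      exact Set.ncard_le_card _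
    calc T₀.ncard < n := by omega
      _ = _ := hcard.symm
      _ ≤ _ := Set.ncard_le_ncard hsub (Set.toFinite _)
  have hUn : Uniq G r H U := wg hB hr hT₀U hJ hP0 hnd hAut
  have hx : InW G r H (insert (Sum.inl a) U) := by
    refine (hPb J R r hr).mono ?_
    intro z hz
    rcases hz with rfl | hz
    · exact mem_UJ_inl.2 ⟨ha, fun e => hab (by simpa using e)⟩
    · rcases z with x | j
      · have := mem_UJ_inl.1 hz
        exact mem_UJ_inl.2 ⟨this.1, fun e => this.2 (by simp [Set.mem_singleton_iff.1 e])⟩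
      · exact mem_UJ_inr
  have hy : InW G r H (insert (Sum.inl b) U) := by
    refine (hPa J R r hr).mono ?_
    intro z hz
    rcases hz with rfl | hz
    · exact mem_UJ_inl.2 ⟨hb, fun e => hab (by simpa using (Set.mem_singleton_iff.1 e).symm)⟩
    · rcases z with x | j
      · have := mem_UJ_inl.1 hz
        exact mem_UJ_inl.2 ⟨this.1, fun e => this.2 (by simp [Set.mem_singleton_iff.1 e])⟩
      · exact mem_UJ_inr
  have hglu : Glued G r H U (Sum.inl a) (Sum.inl b) := by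
    refine gl (D := ∅) ?_ ?_ ?_ (Set.empty_subset _) (fun z hz => absurd hz (Set.notMem_empty z))
      (fun z hz => absurd hz (Set.notMem_empty z)) ?_ ?_ hx hy
    · intro h
      exact (mem_UJ_inl.1 h).2 (by simp)
    · intro h
      exact (mem_UJ_inl.1 h).2 (by simp)
    · simpa using hab
    · rw [Set.ncard_empty, Nat.add_zero, Set.sdiff_empty]
      exact hUn
    · refine ⟨Sum.inr (Sum.inr (Sum.inl (a, ⟨0, Nat.succ_pos _⟩))), mem_UJ_inr, ?_⟩
      intro h
      have h3 : H.Adj (Sum.inl a) (Sum.inr (Sum.inr (Sum.inl (a, ⟨0, Nat.succ_pos _⟩)))) := by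
        show ap1R n R₁ R₂ a (Sum.inr (Sum.inl (a, _)))
        rfl
      have h4 : b = a := h.1 h3
      exact hab h4.symm
  obtain ⟨W, f, hW, hWc, hfull, hinj, hadj⟩ := hglu
  by_cases hf : G.Adj (f (Sum.inl a)) (f (Sum.inl b))
  · have key : InW G r (AJ A R) (UJ J T) :=
      ap1_emb (fun x y _ _ => Iff.rfl) hW hWc hfull hinj hadj (iff_of_true hf h1)
    apply hn₁
    refine (key.comap (Sum.map id (fun j => Sum.inl (Sum.inl j))) ?_ ?_ ?_).le hle1
    · rintro (x | j) hz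
      · simpa using hz
      · simp
    · intro x _ y _ e
      exact Sum.map_injective.2 ⟨Function.injective_id, fun j j' e =>
        Sum.inl_injective (Sum.inl_injective e)⟩ e
    · rintro (x | j) hz (y | k) hz'
      · exact Iff.rfl
      · exact Iff.rfl
      · exact Iff.rfl
      · exact Iff.rfl
  · have key : InW G r (AJ A' R) (UJ J T) :=
      ap1_emb hag hW hWc hfull hinj hadj (iff_of_false hf h2)
    apply hn₂
    refine (key.comap (Sum.map id (fun j => Sum.inl (Sum.inr j))) ?_ ?_ ?_).le hle2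
    · rintro (x | j) hz
      · simpa using hz
      · simp
    · intro x _ y _ e
      exact Sum.map_injective.2 ⟨Function.injective_id, fun j j' e =>
        Sum.inr_injective (Sum.inl_injective e)⟩ e
    · rintro (x | j) hz (y | k) hz'
      · exact Iff.rfl
      · exact Iff.rfl
      · exact Iff.rfl
      · exact Iff.rfl

end Un
end SetHom
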