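import Pool.Agent.Helper30.U.Defs

/-! MP_506470_co, module U-H2: rigidity (degrees) -/

set_option autoImplicit false

namespace SetHom
namespace Un

/-- The numbers of neighbours in the independent set `β` are different, large, and smaller than
the size of `β`. -/
structure Std (r : ℕ) {τ β : Type} (R : τ → β → Prop) : Prop where
  big0 : r + Nat.card τ < Nat.card β
  big : ∀ t, r + Nat.card τ < {j | R t j}.ncard
  lt : ∀ t, {j | R t j}.ncard < Nat.card β
  inj : Function.Injective (fun t => {j | R t j}.ncard)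

/-- module U-H2: rigidity (degrees). -/
theorem rigid {ι τ β : Type} [Finite ι] [Finite τ] [Finite β] (K : SimpleGraph (ι ⊕ (τ ⊕ β)))
    (hι : ∀ i i', i ≠ i' → K.Adj (Sum.inl i) (Sum.inl i'))
    (hιβ : ∀ i j, K.Adj (Sum.inl i) (Sum.inr (Sum.inr j)))
    (hβ : ∀ j j', ¬ K.Adj (Sum.inr (Sum.inr j)) (Sum.inr (Sum.inr j')))
    (hstd : Std (Nat.card ι) (fun t j => K.Adj (Sum.inr (Sum.inl t)) (Sum.inr (Sum.inr j))))
    (σ : Equiv.Perm (ι ⊕ (τ ⊕ β))) (hσ : ∀ x y, K.Adj (σ x) (σ y) ↔ K.Adj x y) :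
    (∀ i, ∃ i', σ (Sum.inl i) = Sum.inl i') ∧
      (∀ t, σ (Sum.inr (Sum.inl t)) = Sum.inr (Sum.inl t)) ∧
      ∀ j, ∃ j', σ (Sum.inr (Sum.inr j)) = Sum.inr (Sum.inr j') := by
  classical
  let b : β → ι ⊕ (τ ⊕ β) := fun j => Sum.inr (Sum.inr j)
  have binj : Function.Injective b := fun j j' e => by simpa [b] using e
  have fin : ∀ s : Set (ι ⊕ (τ ⊕ β)), s.Finite := fun s => Set.toFinite s
  -- degrees are preserved
  have hdeg : ∀ x, {y | K.Adj (σ x) y}.ncard = {y | K.Adj x y}.ncard := by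
    intro x
    have : {y | K.Adj (σ x) y} = σ '' {y | K.Adj x y} := by
      ext y
      constructor
      · intro hy
        refine ⟨σ.symm y, ?_, by simp⟩
        have := hσ x (σ.symm y)
        rw [Equiv.apply_symm_apply] at this
        exact this.1 hy
      · rintro ⟨z, hz, rfl⟩
        exact (hσ x z).2 hz
    rw [this]
    exact Set.ncard_image_of_injective _ σ.injective
  -- points of `β` have small degree
  have hsmall : ∀ j, {y | K.Adj (b j) y}.ncard ≤ Nat.card ι + Nat.card τ := by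
    intro j
    have hsub : {y | K.Adj (b j) y} ⊆ Set.range (Sum.map id Sum.inl : ι ⊕ τ → ι ⊕ (τ ⊕ β)) := by
      rintro (i | t | j') hy
      · exact ⟨Sum.inl i, rfl⟩
      · exact ⟨Sum.inr t, rfl⟩
      · exact absurd hy (hβ j j')
    refine (Set.ncard_le_ncard hsub (fin _)).trans ?_
    rw [← Nat.card_coe_set_eq]
    refine (Finite.card_range_le _).trans ?_
    rw [Nat.card_sum]
  have hbigτ : ∀ t, Nat.card ι + Nat.card τ <
      {y | K.Adj (Sum.inr (Sum.inl t) : ι ⊕ (τ ⊕ β)) y}.ncard := by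
    intro t
    refine (hstd.big t).trans_le ?_
    rw [← Set.ncard_image_of_injective _ binj]
    refine Set.ncard_le_ncard ?_ (fin _)
    rintro _ ⟨j, hj, rfl⟩
    exact hj
  have hbigι : ∀ i, Nat.card ι + Nat.card τ <
      {y | K.Adj (Sum.inl i : ι ⊕ (τ ⊕ β)) y}.ncard := by
    intro i
    refine hstd.big0.trans_le ?_
    rw [← Set.ncard_univ, ← Set.ncard_image_of_injective _ binj]
    refine Set.ncard_le_ncard ?_ (fin _)
    rintro _ ⟨j, -, rfl⟩
    exact hιβ i j
  -- `σ` preserves `β`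
  have hB : ∀ x, (∃ j, x = b j) ↔ {y | K.Adj x y}.ncard ≤ Nat.card ι + Nat.card τ := by
    intro x
    constructor
    · rintro ⟨j, rfl⟩
      exact hsmall j
    · intro h
      rcases x with i | t | j
      · exact absurd h (by have := hbigι i; omega)
      · exact absurd h (by have := hbigτ t; omega)
      · exact ⟨j, rfl⟩
  have hσB : ∀ x, (∃ j, σ x = b j) ↔ ∃ j, x = b j := by
    intro x
    rw [hB, hB, hdeg]
  -- `σ` preserves adjacency to all of `β`
  have hall : ∀ x, (∀ j, K.Adj (σ x) (b j)) ↔ ∀ j, K.Adj x (b j) := by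
    intro x
    constructor
    · intro h j
      obtain ⟨j', hj'⟩ := (hσB (b j)).2 ⟨j, rfl⟩
      rw [← hσ, hj']
      exact h j'
    · intro h j
      obtain ⟨j', hj'⟩ := (hσB (σ.symm (b j))).1 ⟨j, by simp⟩
      have h2 : b j = σ (b j') := by rw [← hj']; simp
      rw [h2, hσ]
      exact h j'
  have hnotall : ∀ t, ¬ ∀ j, K.Adj (Sum.inr (Sum.inl t)) (b j) := by
    intro t h
    have h1 := hstd.lt t
    have h2 : {j | K.Adj (Sum.inr (Sum.inl t)) (Sum.inr (Sum.inr j))} = (Set.univ : Set β) := by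
      ext j
      simp only [Set.mem_ofPred_eq, Set.mem_univ, iff_true]
      exact h j
    rw [h2, Set.ncard_univ] at h1
    exact lt_irrefl _ h1
  refine ⟨?_, ?_, ?_⟩
  · intro i
    have h1 : ∀ j, K.Adj (σ (Sum.inl i)) (b j) := (hall _).2 (hιβ i)
    have h2 : ¬ ∃ j, σ (Sum.inl i) = b j := by
      rw [hσB]
      rintro ⟨j, hj⟩
      simp [b] at hj
    rcases hx : σ (Sum.inl i) with i' | t | j
    · exact ⟨i', rfl⟩
    · rw [hx] at h1
      exact absurd h1 (hnotall t)
    · exact absurd ⟨j, hx⟩ h2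
  · intro t
    have h1 : ¬ ∀ j, K.Adj (σ (Sum.inr (Sum.inl t))) (b j) := by
      rw [hall]
      exact hnotall t
    have h2 : ¬ ∃ j, σ (Sum.inr (Sum.inl t)) = b j := by
      rw [hσB]
      rintro ⟨j, hj⟩
      simp [b] at hj
    rcases hx : σ (Sum.inr (Sum.inl t)) with i' | t' | j
    · rw [hx] at h1
      exact absurd (hιβ i') h1
    · -- the same number of neighbours in `β`
      have hcount : ∀ x, {y | (∃ j, y = b j) ∧ K.Adj (σ x) y}.ncard
          = {y | (∃ j, y = b j) ∧ K.Adj x y}.ncard := by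
        intro x
        have : {y | (∃ j, y = b j) ∧ K.Adj (σ x) y}
            = σ '' {y | (∃ j, y = b j) ∧ K.Adj x y} := by
          ext y
          constructor
          · rintro ⟨hy, hxy⟩
            refine ⟨σ.symm y, ⟨?_, ?_⟩, by simp⟩
            · rw [← hσB]
              simpa using hy
            · have := hσ x (σ.symm y)
              rw [Equiv.apply_symm_apply] at this
              exact this.1 hxy
          · rintro ⟨z, ⟨hz, hxz⟩, rfl⟩
            exact ⟨(hσB z).2 hz, (hσ x z).2 hxz⟩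
        rw [this]
        exact Set.ncard_image_of_injective _ σ.injective
      have himg : ∀ t, {y | (∃ j, y = b j) ∧ K.Adj (Sum.inr (Sum.inl t)) y}.ncard
          = {j | K.Adj (Sum.inr (Sum.inl t)) (Sum.inr (Sum.inr j))}.ncard := by
        intro t
        have : {y | (∃ j, y = b j) ∧ K.Adj (Sum.inr (Sum.inl t)) y}
            = b '' {j | K.Adj (Sum.inr (Sum.inl t)) (Sum.inr (Sum.inr j))} := by
          ext y
          constructor
          · rintro ⟨⟨j, rfl⟩, hj⟩
            exact ⟨j, hj, rfl⟩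
          · rintro ⟨j, hj, rfl⟩
            exact ⟨⟨j, rfl⟩, hj⟩
        rw [this]
        exact Set.ncard_image_of_injective _ binj
      have h3 := hcount (Sum.inr (Sum.inl t))
      rw [hx, himg, himg] at h3
      rw [hstd.inj h3]
    · exact absurd ⟨j, hx⟩ h2
  · intro j
    exact (hσB (Sum.inr (Sum.inr j))).2 ⟨j, rfl⟩

end Un
end SetHom
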